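import Pool.Agent.Helper43.RS.Spec

/-!
# Module GEN: generation by the translates of finitely many eigenvectors of `B`
-/

namespace Pool.Agent.Helper43.RS

/-- restriction of a representation to a stable subspace -/
def genSub {G : Type} [Group G] {V : Type} [AddCommGroup V] [Module ℂ V]
    (ρ : Representation ℂ G V) (U : Submodule ℂ V) (hU : ∀ g, ∀ w ∈ U, ρ g w ∈ U) :
    Representation ℂ G U where
  toFun g := (ρ g).restrict (hU g)
  map_one' := by
    apply LinearMap.ext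
    intro v
    apply Subtype.ext
    show ρ 1 (v : V) = v
    rw [map_one]; rfl
  map_mul' g h := by
    apply LinearMap.ext
    intro v
    apply Subtype.ext
    show ρ (g * h) (v : V) = ρ g (ρ h v)
    rw [map_mul]; rfl

theorem gen_coe {G : Type} [Group G] {V : Type} [AddCommGroup V] [Module ℂ V]
    (ρ : Representation ℂ G V) (U : Submodule ℂ V) (hU : ∀ g, ∀ w ∈ U, ρ g w ∈ U)
    (g : G) (v : U) : ((genSub ρ U hU g v : U) : V) = ρ g (v : V) := rfl

/-- coefficient functions of a subrepresentation -/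
theorem gen_coeff {G : Type} [Group G] {H : Subalgebra ℂ (G → ℂ)} {V : Type} [AddCommGroup V]
    [Module ℂ V] (ρ : Representation ℂ G V) (U : Submodule ℂ V)
    (hU : ∀ g, ∀ w ∈ U, ρ g w ∈ U)
    (hH : ∀ w ∈ U, ∀ φ : V →ₗ[ℂ] ℂ, (fun g => φ (ρ g w)) ∈ H) (w : U) (φ : U →ₗ[ℂ] ℂ) :
    (fun g => φ (genSub ρ U hU g w)) ∈ H := by
  obtain ⟨φ', hφ'⟩ := LinearMap.exists_extend φ
  have h1 : (fun g => φ (genSub ρ U hU g w)) = fun g => φ' (ρ g (w : V)) := by
    funext g
    rw [← hφ']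
    rfl
  rw [h1]
  exact hH w w.2 φ'

theorem gen_isRat {G : Type} [Group G] {H : Subalgebra ℂ (G → ℂ)} {V : Type} [AddCommGroup V]
    [Module ℂ V] [FiniteDimensional ℂ V] (ρ : Representation ℂ G V)
    (hH : ∀ (w : V) (φ : V →ₗ[ℂ] ℂ), (fun g => φ (ρ g w)) ∈ H) : IsRat H ρ := by
  intro v
  exact ⟨⊤, Submodule.mem_top, inferInstance, fun _ _ _ => Submodule.mem_top,
    fun w _ φ => hH w φ⟩

/-- restriction to a subgroup of a Hopf algebra of functions -/
theorem gen_resFun_hopf {G : Type} [Group G] {H : Subalgebra ℂ (G → ℂ)} (hH : HopfFun H)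
    (B : Subgroup G) : HopfFun (resFun H B) := by
  constructor
  · rintro f ⟨f', hf', rfl⟩
    obtain ⟨n, a, b, ha, hb, hab⟩ := hH.mul f' hf'
    refine ⟨n, fun i x => a i x, fun i x => b i x, fun i => ⟨a i, ha i, rfl⟩,
      fun i => ⟨b i, hb i, rfl⟩, ?_⟩
    intro x y
    exact hab x y
  · rintro f ⟨f', hf', rfl⟩
    exact ⟨fun x => f' x⁻¹, hH.inv f' hf', rfl⟩

theorem gen_mem_resFun {G : Type} [Group G] {H : Subalgebra ℂ (G → ℂ)} (B : Subgroup G)
    {f : G → ℂ} (hf : f ∈ H) : (fun b : B => f b) ∈ resFun H B := ⟨f, hf, rfl⟩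

/-- the translates of the `B`-eigenvectors span -/
theorem gen_span (hLK : ST_LK) {G : Type} [Group G] {H : Subalgebra ℂ (G → ℂ)} (hH : HopfFun H)
    (hred : LinRed H) (B : Subgroup G) (hB : Group.IsSolvable B) (hirr : IrrFun (resFun H B))
    {V : Type} [AddCommGroup V] [Module ℂ V] (ρ : Representation ℂ G V) (hρ : IsRat H ρ) :
    Submodule.span ℂ {x | ∃ (g : G) (r : V), (r ≠ 0 ∧ ∃ lam : B → ℂ, ∀ b : B,
      ρ b r = lam b • r) ∧ x = ρ g r} = ⊤ := by
  set W := Submodule.span ℂ {x | ∃ (g : G) (r : V), (r ≠ 0 ∧ ∃ lam : B → ℂ, ∀ b : B,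
      ρ b r = lam b • r) ∧ x = ρ g r} with hW
  have hWst : ∀ g, ∀ w ∈ W, ρ g w ∈ W := by
    intro g w hw
    induction hw using Submodule.span_induction with
    | mem x hx =>
      obtain ⟨g', r, hr, rfl⟩ := hx
      apply Submodule.subset_span
      refine ⟨g * g', r, hr, ?_⟩
      rw [map_mul]; rfl
    | zero => rw [map_zero]; exact W.zero_mem
    | add x y _ _ hx hy => rw [map_add]; exact W.add_mem hx hy
    | smul c x _ hx => rw [map_smul]; exact W.smul_mem c hx
  by_contra hne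
  obtain ⟨x, hx⟩ : ∃ x, x ∉ W := by
    by_contra hcon
    push Not at hcon
    exact hne (Submodule.eq_top_iff'.mpr hcon)
  obtain ⟨U, hxU, hUfd, hUst, hUH⟩ := hρ x
  have hco := gen_coeff (H := H) ρ U hUst hUH
  have hrat : IsRat H (genSub ρ U hUst) := gen_isRat _ hco
  obtain ⟨W', hW'st, hcompl⟩ := hred U (genSub ρ U hUst) hrat (W.comap U.subtype) (by
    intro g w hw
    exact hWst g _ hw)
  have hW'ne : W' ≠ ⊥ := by
    rintro rfl
    have h1 : W.comap U.subtype = ⊤ := by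
      have := hcompl.sup_eq_top
      rwa [sup_bot_eq] at this
    have h2 : (⟨x, hxU⟩ : U) ∈ W.comap U.subtype := by rw [h1]; exact Submodule.mem_top
    exact hx h2
  have hnt : Nontrivial W' := Submodule.nontrivial_iff_ne_bot.mpr hW'ne
  have hco' := gen_coeff (H := H) (genSub ρ U hUst) W' hW'st (fun w _ φ => hco w φ)
  have hrat' : IsRat (resFun H B)
      ((genSub (genSub ρ U hUst) W' hW'st).comp B.subtype : Representation ℂ B W') := by
    apply gen_isRat
    intro w φ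
    exact gen_mem_resFun B (hco' w φ)
  obtain ⟨v, hv0, lam, hlam⟩ := hLK B (resFun H B) (gen_resFun_hopf hH B) hirr hB W' _ hrat'
  have hvW : ((v : U) : V) ∈ W := by
    apply Submodule.subset_span
    refine ⟨1, ((v : U) : V), ⟨?_, lam, ?_⟩, ?_⟩
    · intro h
      apply hv0
      apply Subtype.ext
      apply Subtype.ext
      exact h
    · intro b
      have := congrArg (fun z : W' => ((z : U) : V)) (hlam b)
      exact this
    · rw [map_one]; rfl
  have hmem : (v : U) ∈ (W.comap U.subtype) ⊓ W' := ⟨hvW, v.2⟩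
  rw [hcompl.inf_eq_bot] at hmem
  apply hv0
  apply Subtype.ext
  exact (Submodule.mem_bot ℂ).mp hmem

theorem st_GEN (hLK : ST_LK) : ST_GEN := by
  intro G _ H hH hred B hB hirr R _ _ _ ρ hρ
  have hspan := gen_span hLK hH hred B hB hirr (toRep ρ) hρ
  obtain ⟨S, hS⟩ := (inferInstance : Algebra.FiniteType ℂ R).out
  have key : ∀ s : R, ∃ T : Set R, T ⊆ {x | ∃ (g : G) (r : R), (r ≠ 0 ∧ ∃ lam : B → ℂ, ∀ b : B,
      toRep ρ b r = lam b • r) ∧ x = toRep ρ g r} ∧ T.Finite ∧ s ∈ Submodule.span ℂ T := by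
    intro s
    have hs : s ∈ Submodule.span ℂ {x | ∃ (g : G) (r : R), (r ≠ 0 ∧ ∃ lam : B → ℂ, ∀ b : B,
      toRep ρ b r = lam b • r) ∧ x = toRep ρ g r} := by rw [hspan]; exact Submodule.mem_top
    obtain ⟨T, hT1, hT2⟩ := Submodule.mem_span_finite_of_mem_span hs
    exact ⟨T, hT1, T.finite_toSet, hT2⟩
  choose T hT1 hT2 hT3 using key
  set TT : Set R := ⋃ s ∈ S, T s with hTT
  have hTTfin : TT.Finite := S.finite_toSet.biUnion fun s _ => hT2 s
  have hTTsub : ∀ t : TT, ∃ (g : G) (r : R), (r ≠ 0 ∧ ∃ lam : B → ℂ, ∀ b : B,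
      toRep ρ b r = lam b • r) ∧ (t : R) = toRep ρ g r := by
    rintro ⟨t, ht⟩
    rw [hTT, Set.mem_iUnion₂] at ht
    obtain ⟨s, _, hts⟩ := ht
    exact hT1 s hts
  choose g r hr hgr using hTTsub
  have : Finite TT := hTTfin
  have : Fintype TT := Fintype.ofFinite TT
  choose lam hlam using fun t => (hr t).2
  let e := (Fintype.equivFin TT).symm
  refine ⟨Fintype.card TT, fun i => lam (e i), fun i => r (e i), ?_, fun i => (hr (e i)).1, ?_⟩
  · intro i b
    exact hlam (e i) b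
  · rw [eq_top_iff, ← hS]
    apply Algebra.adjoin_le
    intro s hs
    have h1 : Submodule.span ℂ (T s) ≤ Subalgebra.toSubmodule
        (Algebra.adjoin ℂ {x | ∃ (g : G) (i : Fin (Fintype.card TT)), x = ρ g (r (e i))}) := by
      rw [Submodule.span_le]
      intro t ht
      have htt : t ∈ TT := by
        rw [hTT, Set.mem_iUnion₂]
        exact ⟨s, hs, ht⟩
      apply Algebra.subset_adjoin
      refine ⟨g ⟨t, htt⟩, Fintype.equivFin TT ⟨t, htt⟩, ?_⟩
      have h2 : e (Fintype.equivFin TT ⟨t, htt⟩) = ⟨t, htt⟩ := Equiv.symm_apply_apply _ _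
      rw [h2]
      exact hgr ⟨t, htt⟩
    exact h1 (hT3 s)

end Pool.Agent.Helper43.RS
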