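import Pool.Agent.Helper43.RS.Spec

/-!
# Module LOC: finiteness of cohomology for groups of algebra automorphisms defined by
conditions on a finite dimensional generating subspace
-/

namespace Pool.Agent.Helper43.RS

open scoped ComplexConjugate
open MvPolynomial

/-- index set of the entries of a matrix and of its inverse -/
abbrev LocI (n : ℕ) : Type := (Fin n × Fin n) ⊕ (Fin n × Fin n)

theorem loc_zclosed {n : ℕ} (S : Set (GL (Fin n) ℂ))
    (h : ∀ g, (∀ Q : MvPolynomial (LocI n) ℂ, (∀ a ∈ S, eval (entries a) Q = 0) →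
      eval (entries g) Q = 0) → g ∈ S) : ZClosed S := by
  refine ⟨{Q | ∀ a ∈ S, eval (entries a) Q = 0}, ?_⟩
  ext g
  exact ⟨fun hg Q hQ => hQ g hg, fun hg => h g fun Q hQ => hg Q hQ⟩

theorem loc_func {σ R : Type} [CommRing R] [Algebra ℂ R] (φ : R →ₗ[ℂ] ℂ)
    (P : MvPolynomial σ R) : ∃ Q : MvPolynomial σ ℂ, ∀ z : σ → ℂ,
      eval z Q = φ (eval (fun s => algebraMap ℂ R (z s)) P) := by
  induction P using MvPolynomial.induction_on' with
  | monomial u a =>
    refine ⟨monomial u (φ a), fun z => ?_⟩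
    rw [eval_monomial, eval_monomial]
    have h : a * u.prod (fun n e => algebraMap ℂ R (z n) ^ e) = (u.prod fun n e => z n ^ e) • a := by
      rw [Algebra.smul_def, Finsupp.prod, Finsupp.prod, map_prod, mul_comm]
      simp only [map_pow]
    rw [h, map_smul, smul_eq_mul, mul_comm]
  | add p q hp hq =>
    obtain ⟨Q, hQ⟩ := hp
    obtain ⟨Q', hQ'⟩ := hq
    exact ⟨Q + Q', fun z => by rw [map_add, map_add, map_add, hQ, hQ']⟩

theorem loc_aeval {σ τ R : Type} [CommRing R] [Algebra ℂ R] (w : (σ → ℂ) → τ → R)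
    (hw : ∀ t, ∃ P : MvPolynomial σ R, ∀ z, w z t = eval (fun s => algebraMap ℂ R (z s)) P)
    (p : MvPolynomial τ ℂ) : ∃ P : MvPolynomial σ R, ∀ z,
      aeval (w z) p = eval (fun s => algebraMap ℂ R (z s)) P := by
  induction p using MvPolynomial.induction_on with
  | C a => exact ⟨C (algebraMap ℂ R a), fun z => by rw [eval_C]; simp⟩
  | add p q hp hq =>
    obtain ⟨P, hP⟩ := hp
    obtain ⟨P', hP'⟩ := hq
    exact ⟨P + P', fun z => by rw [map_add, map_add, hP, hP']⟩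
  | mul_X p s hp =>
    obtain ⟨P, hP⟩ := hp
    obtain ⟨P', hP'⟩ := hw s
    exact ⟨P * P', fun z => by rw [map_mul, map_mul, hP, aeval_X, hP']⟩

/-- the polynomial condition attached to a relation and a functional -/
theorem loc_cond {n : ℕ} {R : Type} [CommRing R] [Algebra ℂ R] (v : Fin n → R)
    (ι : Fin n × Fin n → LocI n) (p : MvPolynomial (Fin n) ℂ) (φ : R →ₗ[ℂ] ℂ) :
    ∃ Q : MvPolynomial (LocI n) ℂ, ∀ z : LocI n → ℂ,
      eval z Q = φ (aeval (fun j => ∑ i, z (ι (i, j)) • v i) p) := by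
  obtain ⟨P, hP⟩ := loc_aeval (fun (z : LocI n → ℂ) j => ∑ i, z (ι (i, j)) • v i) (by
    intro j
    refine ⟨∑ i, X (ι (i, j)) * C (v i), fun z => ?_⟩
    rw [map_sum]
    refine Finset.sum_congr rfl fun i _ => ?_
    rw [map_mul, eval_X, eval_C, Algebra.smul_def]) p
  obtain ⟨Q, hQ⟩ := loc_func φ P
  exact ⟨Q, fun z => by rw [hQ, hP]⟩

theorem loc_lift {n : ℕ} {R : Type} [CommRing R] [Algebra ℂ R] (v w : Fin n → R)
    (hv : Algebra.adjoin ℂ (Set.range v) = ⊤)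
    (h : ∀ p : MvPolynomial (Fin n) ℂ, aeval v p = 0 → aeval w p = 0) :
    ∃ a : R →ₐ[ℂ] R, ∀ j, a (v j) = w j := by
  have hsurj : Function.Surjective (aeval v : MvPolynomial (Fin n) ℂ →ₐ[ℂ] R) := by
    rw [← AlgHom.range_eq_top, ← Algebra.adjoin_range_eq_range_aeval, hv]
  refine ⟨AlgHom.liftOfSurjective (aeval v) hsurj (aeval w) (fun p hp => h p hp), fun j => ?_⟩
  have h1 := AlgHom.liftOfSurjective_apply (aeval v) hsurj (aeval w) (fun p hp => h p hp) (X j)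
  rw [aeval_X, aeval_X] at h1
  exact h1

/-- expansion in the basis -/
theorem loc_expand {n : ℕ} {R : Type} [CommRing R] [Algebra ℂ R] {V : Submodule ℂ R}
    (v : Module.Basis (Fin n) ℂ V) (x : V) : (x : R) = ∑ i, v.repr x i • (v i : R) := by
  conv_lhs => rw [← v.sum_repr x]
  rw [Submodule.coe_sum]
  rfl

theorem loc_unique {n : ℕ} {R : Type} [CommRing R] [Algebra ℂ R] {V : Submodule ℂ R}
    (v : Module.Basis (Fin n) ℂ V) (x y : Fin n → ℂ)
    (h : ∑ i, x i • (v i : R) = ∑ i, y i • (v i : R)) : x = y := by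
  have h1 : ∑ i, x i • v i = ∑ i, y i • v i := by
    apply Subtype.ext
    rw [Submodule.coe_sum, Submodule.coe_sum]
    exact h
  have h2 := congrArg v.equivFun h1
  rw [← v.equivFun_symm_apply, ← v.equivFun_symm_apply, LinearEquiv.apply_symm_apply,
    LinearEquiv.apply_symm_apply] at h2
  exact h2

theorem loc_adjoin {n : ℕ} {R : Type} [CommRing R] [Algebra ℂ R] {V : Submodule ℂ R}
    (v : Module.Basis (Fin n) ℂ V) (hV : Algebra.adjoin ℂ (V : Set R) = ⊤) :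
    Algebra.adjoin ℂ (Set.range fun i => (v i : R)) = ⊤ := by
  rw [eq_top_iff, ← hV]
  apply Algebra.adjoin_le
  intro x hx
  have h1 := loc_expand v ⟨x, hx⟩
  change x = _ at h1
  rw [h1]
  refine Subalgebra.sum_mem _ fun i _ => Subalgebra.smul_mem _ ?_ _
  exact Algebra.subset_adjoin (Set.mem_range_self i)

theorem loc_closed {R : Type} [CommRing R] [Algebra ℂ R] (V : Submodule ℂ R)
    (hV : Algebra.adjoin ℂ (V : Set R) = ⊤)
    (A : Subgroup (R ≃ₐ[ℂ] R)) (K : AffineSubspace ℂ (V →ₗ[ℂ] R))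
    (hA : ∀ a : R ≃ₐ[ℂ] R, a ∈ A ↔ (∀ v ∈ V, a v ∈ V) ∧ a.toLinearMap ∘ₗ V.subtype ∈ K)
    {n : ℕ} (v : Module.Basis (Fin n) ℂ V) (M : A →* GL (Fin n) ℂ)
    (hM : ∀ (a : A) (j : Fin n), (a : R ≃ₐ[ℂ] R) (v j : R) =
      ∑ i, (M a : Matrix (Fin n) (Fin n) ℂ) i j • (v i : R)) :
    ZClosed (M.range : Set (GL (Fin n) ℂ)) := by
  have hadj := loc_adjoin v hV
  apply loc_zclosed
  intro g hg
  -- relations are preserved
  have h1 : ∀ p : MvPolynomial (Fin n) ℂ, aeval (fun j => (v j : R)) p = 0 →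
      aeval (fun j => ∑ i, (g : Matrix (Fin n) (Fin n) ℂ) i j • (v i : R)) p = 0 := by
    intro p hp
    apply (Module.forall_dual_apply_eq_zero_iff ℂ _).mp
    intro φ
    obtain ⟨Q, hQ⟩ := loc_cond (fun j => (v j : R)) Sum.inl p φ
    have h := hg Q ?_
    · rw [hQ] at h
      exact h
    · rintro _ ⟨a, rfl⟩
      rw [hQ]
      have e1 : (fun j => ∑ i, entries (M a) (Sum.inl (i, j)) • (v i : R)) =
          fun j => (a : R ≃ₐ[ℂ] R) (v j : R) := by
        funext j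
        rw [hM]
        rfl
      rw [e1]
      have e2 : aeval (fun j => (a : R ≃ₐ[ℂ] R) (v j : R)) p =
          (a : R ≃ₐ[ℂ] R) (aeval (fun j => (v j : R)) p) := by
        have := MvPolynomial.comp_aeval_apply (f := fun j => (v j : R))
          ((a : R ≃ₐ[ℂ] R) : R →ₐ[ℂ] R) p
        exact this.symm
      rw [e2, hp, map_zero, map_zero]
  have h2 : ∀ p : MvPolynomial (Fin n) ℂ, aeval (fun j => (v j : R)) p = 0 →
      aeval (fun j => ∑ i, ((g⁻¹ : GL (Fin n) ℂ) : Matrix (Fin n) (Fin n) ℂ) i j • (v i : R)) p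
        = 0 := by
    intro p hp
    apply (Module.forall_dual_apply_eq_zero_iff ℂ _).mp
    intro φ
    obtain ⟨Q, hQ⟩ := loc_cond (fun j => (v j : R)) Sum.inr p φ
    have h := hg Q ?_
    · rw [hQ] at h
      exact h
    · rintro _ ⟨a, rfl⟩
      rw [hQ]
      have e1 : (fun j => ∑ i, entries (M a) (Sum.inr (i, j)) • (v i : R)) =
          fun j => ((a⁻¹ : A) : R ≃ₐ[ℂ] R) (v j : R) := by
        funext j
        rw [hM, map_inv]
        rfl
      rw [e1]
      have e2 : aeval (fun j => ((a⁻¹ : A) : R ≃ₐ[ℂ] R) (v j : R)) p =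
          ((a⁻¹ : A) : R ≃ₐ[ℂ] R) (aeval (fun j => (v j : R)) p) := by
        have := MvPolynomial.comp_aeval_apply (f := fun j => (v j : R))
          (((a⁻¹ : A) : R ≃ₐ[ℂ] R) : R →ₐ[ℂ] R) p
        exact this.symm
      rw [e2, hp, map_zero, map_zero]
  obtain ⟨a, ha⟩ := loc_lift _ _ hadj h1
  obtain ⟨b, hb⟩ := loc_lift _ _ hadj h2
  have comp : ∀ (x y : R →ₐ[ℂ] R) (g h : GL (Fin n) ℂ),
      (∀ j, x (v j : R) = ∑ i, (g : Matrix (Fin n) (Fin n) ℂ) i j • (v i : R)) →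
      (∀ j, y (v j : R) = ∑ i, (h : Matrix (Fin n) (Fin n) ℂ) i j • (v i : R)) →
      g * h = 1 → x.comp y = AlgHom.id ℂ R := by
    intro x y g h hx hy hgh
    apply AlgHom.ext_of_adjoin_eq_top hadj
    rintro _ ⟨j, rfl⟩
    show x (y (v j : R)) = (v j : R)
    rw [hy, map_sum]
    simp only [map_smul, hx, Finset.smul_sum, smul_smul]
    rw [Finset.sum_comm]
    have e : ∀ k, ∑ i, ((h : Matrix (Fin n) (Fin n) ℂ) i j *
        (g : Matrix (Fin n) (Fin n) ℂ) k i) • (v k : R) =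
        ((1 : Matrix (Fin n) (Fin n) ℂ) k j) • (v k : R) := by
      intro k
      rw [← Finset.sum_smul]
      congr 1
      have : ((g * h : GL (Fin n) ℂ) : Matrix (Fin n) (Fin n) ℂ) k j =
          (1 : Matrix (Fin n) (Fin n) ℂ) k j := by rw [hgh]; rfl
      rw [← this, Units.val_mul, Matrix.mul_apply]
      exact Finset.sum_congr rfl fun i _ => mul_comm _ _
    rw [Finset.sum_congr rfl fun k _ => e k]
    rw [Finset.sum_eq_single j]
    · rw [Matrix.one_apply_eq, one_smul]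
    · intro k _ hk
      rw [Matrix.one_apply_ne hk, zero_smul]
    · intro h
      exact absurd (Finset.mem_univ j) h
  have hab : a.comp b = AlgHom.id ℂ R := comp a b g g⁻¹ ha hb (mul_inv_cancel g)
  have hba : b.comp a = AlgHom.id ℂ R := comp b a g⁻¹ g hb ha (inv_mul_cancel g)
  let e : R ≃ₐ[ℂ] R := AlgEquiv.ofAlgHom a b hab hba
  have he : ∀ j, e (v j : R) = ∑ i, (g : Matrix (Fin n) (Fin n) ℂ) i j • (v i : R) := ha
  -- the affine condition
  have hlin : ∀ (x : R ≃ₐ[ℂ] R) (g : Matrix (Fin n) (Fin n) ℂ),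
      (∀ j, x (v j : R) = ∑ i, g i j • (v i : R)) →
      x.toLinearMap ∘ₗ V.subtype = ∑ i, ∑ j, g i j • ((v.coord j).smulRight (v i : R)) := by
    intro x g hx
    apply v.ext
    intro j
    show x (v j : R) = _
    rw [hx]
    simp only [LinearMap.sum_apply, LinearMap.smul_apply, LinearMap.smulRight_apply,
      Module.Basis.coord_apply, Module.Basis.repr_self]
    refine Finset.sum_congr rfl fun i _ => ?_
    rw [Finset.sum_eq_single j]
    · rw [Finsupp.single_eq_same, one_smul]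
    · intro k _ hk
      rw [Finsupp.single_eq_of_ne hk, zero_smul, smul_zero]
    · intro h
      exact absurd (Finset.mem_univ j) h
  have hk0 : (1 : R ≃ₐ[ℂ] R).toLinearMap ∘ₗ V.subtype ∈ K := ((hA 1).mp A.one_mem).2
  have heK : e.toLinearMap ∘ₗ V.subtype ∈ K := by
    rw [← AffineSubspace.vsub_right_mem_direction_iff_mem hk0, vsub_eq_sub]
    rw [← Submodule.Quotient.mk_eq_zero]
    apply (Module.forall_dual_apply_eq_zero_iff ℂ _).mp
    intro ψ
    let ψ' : (V →ₗ[ℂ] R) →ₗ[ℂ] ℂ := ψ ∘ₗ K.direction.mkQ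
    have hψ' : ∀ y ∈ K.direction, ψ' y = 0 := by
      intro y hy
      show ψ (K.direction.mkQ y) = 0
      rw [Submodule.mkQ_apply, (Submodule.Quotient.mk_eq_zero _).mpr hy, map_zero]
    show ψ' (e.toLinearMap ∘ₗ V.subtype - (1 : R ≃ₐ[ℂ] R).toLinearMap ∘ₗ V.subtype) = 0
    let Q : MvPolynomial (LocI n) ℂ :=
      (∑ i, ∑ j, X (Sum.inl (i, j)) * C (ψ' ((v.coord j).smulRight (v i : R)))) -
        C (ψ' ((1 : R ≃ₐ[ℂ] R).toLinearMap ∘ₗ V.subtype))
    have hQ : ∀ (x : R ≃ₐ[ℂ] R) (g : GL (Fin n) ℂ),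
        (∀ j, x (v j : R) = ∑ i, (g : Matrix (Fin n) (Fin n) ℂ) i j • (v i : R)) →
        eval (entries g) Q = ψ' (x.toLinearMap ∘ₗ V.subtype -
          (1 : R ≃ₐ[ℂ] R).toLinearMap ∘ₗ V.subtype) := by
      intro x g hx
      rw [map_sub, hlin x g hx, map_sum]
      simp only [map_sub, map_sum, map_mul, eval_X, eval_C, map_smul, smul_eq_mul]
      rfl
    rw [← hQ e g he]
    apply hg
    rintro _ ⟨x, rfl⟩
    rw [hQ x (M x) (hM x)]
    apply hψ'
    have hxK : (x : R ≃ₐ[ℂ] R).toLinearMap ∘ₗ V.subtype ∈ K := ((hA x).mp x.2).2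
    rw [← vsub_eq_sub]
    exact AffineSubspace.vsub_mem_direction hxK hk0
  have heV : ∀ x ∈ V, e x ∈ V := by
    intro x hx
    have h3 := loc_expand v ⟨x, hx⟩
    change x = _ at h3
    rw [h3, map_sum]
    refine V.sum_mem fun i _ => ?_
    rw [map_smul, he]
    exact V.smul_mem _ (V.sum_mem fun k _ => V.smul_mem _ (v k).2)
  have heA : e ∈ A := (hA e).mpr ⟨heV, heK⟩
  refine ⟨⟨e, heA⟩, ?_⟩
  apply Units.ext
  ext i j
  have h4 : (∑ i, (M ⟨e, heA⟩ : Matrix (Fin n) (Fin n) ℂ) i j • (v i : R)) =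
      ∑ i, (g : Matrix (Fin n) (Fin n) ℂ) i j • (v i : R) := by
    rw [← hM ⟨e, heA⟩ j, ← he]
  exact congrFun (loc_unique v _ _ h4) i

/-- a basis of fixed vectors -/
theorem loc_basis {R : Type} [CommRing R] [Algebra ℂ R] (V : Submodule ℂ R)
    (hfd : FiniteDimensional ℂ V) (μ : R ≃+* R) (hanti : Anti μ) (hinv : ∀ r, μ (μ r) = r)
    (hμV : ∀ v ∈ V, μ v ∈ V) :
    ∃ (n : ℕ) (v : Module.Basis (Fin n) ℂ V), ∀ j, μ (v j : R) = (v j : R) := by
  let s : Set V := {x | μ (x : R) = (x : R)}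
  have hsmul : ∀ (c : ℂ) (r : R), μ (c • r) = (conj c) • μ r := by
    intro c r
    rw [Algebra.smul_def, map_mul, hanti c, ← Algebra.smul_def]
  have hspan : Submodule.span ℂ s = ⊤ := by
    rw [Submodule.eq_top_iff']
    intro x
    have hx1 : (⟨(x : R) + μ (x : R), V.add_mem x.2 (hμV _ x.2)⟩ : V) ∈ s := by
      show μ ((x : R) + μ (x : R)) = (x : R) + μ (x : R)
      rw [map_add, hinv, add_comm]
    have hx2 : (⟨Complex.I • ((x : R) - μ (x : R)),
        V.smul_mem _ (V.sub_mem x.2 (hμV _ x.2))⟩ : V) ∈ s := by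
      show μ (Complex.I • ((x : R) - μ (x : R))) = Complex.I • ((x : R) - μ (x : R))
      rw [hsmul, map_sub, hinv, Complex.conj_I, neg_smul, ← smul_neg, neg_sub]
    have h := (Submodule.span ℂ s).add_mem
      ((Submodule.span ℂ s).smul_mem (1 / 2 : ℂ) (Submodule.subset_span hx1))
      ((Submodule.span ℂ s).smul_mem (-(1 / 2) * Complex.I : ℂ) (Submodule.subset_span hx2))
    have h2 : x = (1 / 2 : ℂ) • (⟨(x : R) + μ (x : R), V.add_mem x.2 (hμV _ x.2)⟩ : V) +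
        (-(1 / 2) * Complex.I : ℂ) • (⟨Complex.I • ((x : R) - μ (x : R)),
        V.smul_mem _ (V.sub_mem x.2 (hμV _ x.2))⟩ : V) := by
      apply Subtype.ext
      show (x : R) = (1 / 2 : ℂ) • ((x : R) + μ (x : R)) +
        (-(1 / 2) * Complex.I : ℂ) • (Complex.I • ((x : R) - μ (x : R)))
      rw [smul_smul, mul_assoc, Complex.I_mul_I, mul_neg_one, neg_neg, ← smul_add]
      have : (x : R) + μ (x : R) + ((x : R) - μ (x : R)) = (2 : ℂ) • (x : R) := by
        rw [two_smul]; ring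
      rw [this, smul_smul]
      norm_num
    rw [h2]
    exact h
  obtain ⟨b, hbs, hbspan, hbli⟩ := exists_linearIndependent ℂ s
  rw [hspan] at hbspan
  have hbfin : b.Finite := hbli.setFinite
  have : Finite b := hbfin
  have : Fintype b := Fintype.ofFinite b
  let B : Module.Basis b ℂ V := Module.Basis.mk hbli (by rw [Subtype.range_coe, hbspan])
  refine ⟨Fintype.card b, B.reindex (Fintype.equivFin b), fun j => ?_⟩
  rw [Module.Basis.reindex_apply, Module.Basis.mk_apply]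
  exact hbs ((Fintype.equivFin b).symm j).2

theorem st_LOC (hBS : ST_BS) : ST_LOC := by
  intro R _ _ V hfd hV A K hA μ hanti hinv hμV hconj
  obtain ⟨n, v, hv⟩ := loc_basis V hfd μ hanti hinv hμV
  have hadj := loc_adjoin v hV
  have hsmul : ∀ (c : ℂ) (r : R), μ (c • r) = (conj c) • μ r := by
    intro c r
    rw [Algebra.smul_def, map_mul, hanti c, ← Algebra.smul_def]
  -- the representation on `V`
  let ρ : A →* (V →ₗ[ℂ] V) :=
    { toFun := fun a => ((a : R ≃ₐ[ℂ] R).toLinearMap).restrict ((hA a).mp a.2).1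
      map_one' := by
        apply LinearMap.ext
        intro x
        rfl
      map_mul' := fun a b => by
        apply LinearMap.ext
        intro x
        rfl }
  let M : A →* GL (Fin n) ℂ :=
    (Units.map ((LinearMap.toMatrixAlgEquiv v : (V →ₗ[ℂ] V) ≃ₐ[ℂ] Matrix (Fin n) (Fin n) ℂ) :
      (V →ₗ[ℂ] V) →* Matrix (Fin n) (Fin n) ℂ)).comp (MonoidHom.toHomUnits ρ)
  have hMe : ∀ (a : A) (i j : Fin n), (M a : Matrix (Fin n) (Fin n) ℂ) i j =
      v.repr (ρ a (v j)) i := by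
    intro a i j
    show LinearMap.toMatrixAlgEquiv v (ρ a) i j = _
    rw [LinearMap.toMatrixAlgEquiv_apply]
  have hM : ∀ (a : A) (j : Fin n), (a : R ≃ₐ[ℂ] R) (v j : R) =
      ∑ i, (M a : Matrix (Fin n) (Fin n) ℂ) i j • (v i : R) := by
    intro a j
    have h1 := loc_expand v (ρ a (v j))
    have h2 : (ρ a (v j) : R) = (a : R ≃ₐ[ℂ] R) (v j : R) := rfl
    rw [← h2, h1]
    exact Finset.sum_congr rfl fun i _ => by rw [hMe]
  have hMinj : ∀ a b : A, M a = M b → a = b := by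
    intro a b hab
    apply Subtype.ext
    have h : ((a : R ≃ₐ[ℂ] R) : R →ₐ[ℂ] R) = ((b : R ≃ₐ[ℂ] R) : R →ₐ[ℂ] R) := by
      apply AlgHom.ext_of_adjoin_eq_top hadj
      rintro _ ⟨j, rfl⟩
      show (a : R ≃ₐ[ℂ] R) (v j : R) = (b : R ≃ₐ[ℂ] R) (v j : R)
      rw [hM, hM, hab]
    apply AlgEquiv.ext
    intro r
    exact congrArg (fun f : R →ₐ[ℂ] R => f r) h
  have hcl := loc_closed V hV A K hA v M hM
  -- conjugation
  choose! c hcA hc using hconj
  have hcj : ∀ (a : A), cj (M a) = M ⟨c a, hcA a a.2⟩ := by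
    intro a
    apply Units.ext
    ext i j
    have h1 : (∑ i, (cj (M a) : Matrix (Fin n) (Fin n) ℂ) i j • (v i : R)) =
        ∑ i, (M ⟨c a, hcA a a.2⟩ : Matrix (Fin n) (Fin n) ℂ) i j • (v i : R) := by
      rw [← hM ⟨c a, hcA a a.2⟩ j]
      show _ = c a (v j : R)
      rw [hc a a.2, hv, hM, map_sum]
      refine Finset.sum_congr rfl fun i _ => ?_
      rw [hsmul, hv]
      rfl
    exact congrFun (loc_unique v _ _ h1) i
  have hst : ∀ g ∈ M.range, cj g ∈ M.range := by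
    rintro _ ⟨a, rfl⟩
    exact ⟨_, (hcj a).symm⟩
  obtain ⟨T', hT'1, hT'2⟩ := hBS n M.range hcl hst
  -- preimages
  have hpre : ∀ g : GL (Fin n) ℂ, ∃ b : A, g ∈ T' → M b = g := by
    intro g
    by_cases hg : g ∈ T'
    · obtain ⟨b, hb⟩ := hT'1 g hg
      exact ⟨b, fun _ => hb⟩
    · exact ⟨1, fun h => absurd h hg⟩
  choose pre hpre using hpre
  have hTfin : {b : R ≃ₐ[ℂ] R | (∃ g ∈ T', b = (pre g : R ≃ₐ[ℂ] R)) ∧
      ∀ r, b (μ (b (μ r))) = r}.Finite := by
    apply (T'.finite_toSet.image (fun g => (pre g : R ≃ₐ[ℂ] R))).subset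
    rintro b ⟨⟨g, hg, rfl⟩, _⟩
    exact ⟨g, hg, rfl⟩
  refine ⟨hTfin.toFinset, ?_, ?_⟩
  · intro b hb
    rw [Set.Finite.mem_toFinset] at hb
    obtain ⟨⟨g, _, rfl⟩, hb2⟩ := hb
    exact ⟨(pre g).2, hb2⟩
  · intro a ha haa
    have h1 : M ⟨a, ha⟩ * cj (M ⟨a, ha⟩) = 1 := by
      rw [hcj, ← map_mul, ← map_one M]
      congr 1
      apply Subtype.ext
      apply AlgEquiv.ext
      intro r
      show a (c a r) = r
      rw [hc a ha, haa]
    obtain ⟨g, hg, x', ⟨x, rfl⟩, hx⟩ := hT'2 _ ⟨_, rfl⟩ h1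
    rw [← hpre g hg, hcj, ← map_inv, ← map_mul, ← map_mul] at hx
    have hx2 := congrArg (fun z : A => (z : R ≃ₐ[ℂ] R)) (hMinj _ _ hx)
    have hx3 : ∀ r, a r = (x : R ≃ₐ[ℂ] R) ((pre g : R ≃ₐ[ℂ] R)
        ((c (x : R ≃ₐ[ℂ] R)).symm r)) := by
      intro r
      exact congrArg (fun z : R ≃ₐ[ℂ] R => z r) hx2
    have hx4 : ∀ r, a (μ r) = (x : R ≃ₐ[ℂ] R) ((pre g : R ≃ₐ[ℂ] R)
        (μ ((x : R ≃ₐ[ℂ] R).symm r))) := by
      intro r
      rw [hx3]
      congr 2
      rw [AlgEquiv.symm_apply_eq, hc _ x.2, hinv, AlgEquiv.apply_symm_apply]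
    refine ⟨(pre g : R ≃ₐ[ℂ] R), ?_, (x : R ≃ₐ[ℂ] R), x.2, hx4⟩
    rw [Set.Finite.mem_toFinset]
    refine ⟨⟨g, hg, rfl⟩, fun r => ?_⟩
    have hx5 : ∀ s, (pre g : R ≃ₐ[ℂ] R) (μ s) =
        (x : R ≃ₐ[ℂ] R).symm (a (μ ((x : R ≃ₐ[ℂ] R) s))) := by
      intro s
      rw [hx4, AlgEquiv.symm_apply_apply, AlgEquiv.symm_apply_apply]
    rw [hx5 r, hx5, AlgEquiv.apply_symm_apply, haa, AlgEquiv.symm_apply_apply]

end Pool.Agent.Helper43.RS
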