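import Pool.Agent.Helper43.RS.Spec

/-!
# Module STR: the structure theorem (combination of the cases)
-/

namespace Pool.Agent.Helper43.RS

/-- conjugation by a compatible map preserves the group of equivariant automorphisms -/
theorem str_eqAut_conj {G : Type} [Group G] {R : Type} [CommRing R] [Algebra ℂ R]
    {ρ : G →* (R ≃ₐ[ℂ] R)} {ψ : R ≃+* R} (h : Compat ρ ψ) {a a' : R ≃ₐ[ℂ] R}
    (haa : ∀ r, a' (ψ r) = ψ (a r)) (ha : a ∈ eqAut ρ) : a' ∈ eqAut ρ := by
  obtain ⟨_, σ, hσ⟩ := h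
  intro g
  have ha2 : ∀ (g : G) (r : R), a (ρ g r) = ρ g (a r) := by
    intro g r
    have := congrArg (fun b : R ≃ₐ[ℂ] R => b r) (ha g)
    simpa using this
  apply AlgEquiv.ext
  intro r
  obtain ⟨s, rfl⟩ := ψ.surjective r
  have h1 : ρ g (ψ s) = ψ (ρ (σ.symm g) s) := by
    rw [hσ]; simp
  have h2 : ρ g (ψ (a s)) = ψ (ρ (σ.symm g) (a s)) := by
    rw [hσ]; simp
  show a' (ρ g (ψ s)) = ρ g (a' (ψ s))
  rw [h1, haa, haa, h2, ha2]

/-- an equivariant automorphism preserves the invariants -/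
theorem str_invt_mem {G : Type} [Group G] {R : Type} [CommRing R] [Algebra ℂ R]
    {ρ : G →* (R ≃ₐ[ℂ] R)} {a : R ≃ₐ[ℂ] R} (ha : a ∈ eqAut ρ) {r : R} (hr : r ∈ invt ρ) :
    a r ∈ invt ρ := by
  intro g
  have := congrArg (fun b : R ≃ₐ[ℂ] R => b r) (ha g)
  have h2 : a (ρ g r) = ρ g (a r) := by simpa using this
  rw [← h2, hr g]

/-- the group of automorphisms of the invariants induced by the equivariant automorphisms -/
def strQ {G : Type} [Group G] {R : Type} [CommRing R] [Algebra ℂ R]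
    (ρ : G →* (R ≃ₐ[ℂ] R)) : Subgroup (invt ρ ≃ₐ[ℂ] invt ρ) where
  carrier := {q | ∃ a ∈ eqAut ρ, ∀ r : invt ρ, ((q r : invt ρ) : R) = a (r : R)}
  mul_mem' := by
    rintro q q' ⟨a, ha, h⟩ ⟨a', ha', h'⟩
    refine ⟨a * a', (eqAut ρ).mul_mem ha ha', fun r => ?_⟩
    show ((q (q' r) : invt ρ) : R) = a (a' r)
    rw [h, h']
  one_mem' := ⟨1, (eqAut ρ).one_mem, fun r => rfl⟩
  inv_mem' := by
    rintro q ⟨a, ha, h⟩
    refine ⟨a⁻¹, (eqAut ρ).inv_mem ha, fun r => ?_⟩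
    have h1 : ((q (q⁻¹ r) : invt ρ) : R) = (r : R) := by
      show ((q (q.symm r) : invt ρ) : R) = (r : R)
      rw [AlgEquiv.apply_symm_apply]
    rw [h] at h1
    show ((q⁻¹ r : invt ρ) : R) = a.symm (r : R)
    rw [← h1, AlgEquiv.symm_apply_apply]

/-- restriction of an equivariant automorphism -/
def strRes {G : Type} [Group G] {R : Type} [CommRing R] [Algebra ℂ R]
    {ρ : G →* (R ≃ₐ[ℂ] R)} {a : R ≃ₐ[ℂ] R} (ha : a ∈ eqAut ρ) : invt ρ ≃ₐ[ℂ] invt ρ :=
  AlgEquiv.ofAlgHom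
    ((a.toAlgHom.comp (invt ρ).val).codRestrict (invt ρ) fun r => str_invt_mem ha r.2)
    (((a⁻¹).toAlgHom.comp (invt ρ).val).codRestrict (invt ρ)
      fun r => str_invt_mem ((eqAut ρ).inv_mem ha) r.2)
    (by
      apply AlgHom.ext
      intro r
      apply Subtype.ext
      show a (a.symm (r : R)) = r
      exact a.apply_symm_apply _)
    (by
      apply AlgHom.ext
      intro r
      apply Subtype.ext
      show a.symm (a (r : R)) = r
      exact a.symm_apply_apply _)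

theorem st_STR (hFDV : ST_FDV) (hINV : ST_INV) (hCURVE : ST_CURVE) (hA : ST_STRA)
    (hB : ST_STRB) (hC : ST_STRC) : ST_STR := by
  intro G _ H B R _ _ _ ρ hs
  by_cases hnc : ∃ t ∈ invt ρ, ∀ c : ℂ, t ≠ algebraMap ℂ R c
  · have hcr : CurveRing (invt ρ) := hINV G H B R ρ hs hnc
    by_cases hfin : {f : invt ρ → R | ∃ a ∈ eqAut ρ, ∀ r, f r = a r}.Finite
    · exact hA G H B R ρ hs hnc hfin
    · have hinf : Infinite (strQ ρ) := by
        by_contra hcon
        have hf : Finite (strQ ρ) := not_infinite_iff_finite.mp hcon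
        apply hfin
        refine (Set.finite_range
          (fun (q : strQ ρ) (r : invt ρ) => (((q : invt ρ ≃ₐ[ℂ] invt ρ) r : invt ρ) : R))).subset ?_
        rintro f ⟨a, ha, hfa⟩
        refine ⟨⟨strRes ha, a, ha, fun r => rfl⟩, ?_⟩
        funext r
        show a (r : R) = f r
        rw [hfa]
      rcases hCURVE (invt ρ) hcr (strQ ρ) hinf with h | h
      · exact hB G H B R ρ hs h
      · exact hC G H B R ρ hs h
  · have hc : ∀ r ∈ invt ρ, ∃ c : ℂ, r = algebraMap ℂ R c := by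
      intro r hr
      by_contra hcon
      exact hnc ⟨r, hr, fun c hcr => hcon ⟨c, hcr⟩⟩
    have := hs.ft
    obtain ⟨V, hV1, hV2, hV3⟩ := hFDV G H hs.hopf hs.red R ρ hs.rat hc
    refine ⟨eqAut ρ, eqAut ρ, le_refl _, le_refl _, ?_, ⟨0, 1, ?_⟩, ?_, V, hV1, hV2, ⊤, ?_⟩
    · rw [Subgroup.relIndex_self]; exact one_ne_zero
    · intro a
      exact ⟨fun _ => a.2, fun _ => rfl⟩
    · intro ψ hψ a a' haa
      exact ⟨str_eqAut_conj hψ haa, str_eqAut_conj hψ haa⟩
    · intro a ha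
      exact ⟨fun _ => ⟨hV3 a ha, AffineSubspace.mem_top _ _ _⟩, fun _ => ha⟩

end Pool.Agent.Helper43.RS
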