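import Pool.Agent.Helper43.RS.Spec

/-!
# Module BS: finiteness of the first real cohomology set of a linear algebraic group
-/

namespace Pool.Agent.Helper43.RS

open scoped ComplexConjugate Topology
open MvPolynomial

/-! ## Real polynomials -/

/-- the common zero set of real polynomials is the zero set of one nonnegative polynomial -/
theorem bs_one {N : ℕ} (F : Set (MvPolynomial (Fin N) ℝ)) :
    ∃ f : MvPolynomial (Fin N) ℝ, (∀ x, 0 ≤ eval x f) ∧
      ∀ x, eval x f = 0 ↔ ∀ g ∈ F, eval x g = 0 := by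
  obtain ⟨s, hs⟩ := (inferInstance : IsNoetherianRing (MvPolynomial (Fin N) ℝ)).noetherian
    (Ideal.span F)
  have hev : ∀ x, eval x (∑ g ∈ s, g ^ 2) = ∑ g ∈ s, (eval x g) ^ 2 := by
    intro x
    rw [map_sum]
    exact Finset.sum_congr rfl fun g _ => map_pow _ _ _
  have hker : ∀ (x : Fin N → ℝ) (S : Set (MvPolynomial (Fin N) ℝ)),
      (∀ g ∈ S, eval x g = 0) ↔ Ideal.span S ≤ RingHom.ker (eval x) := by
    intro x S
    rw [Ideal.span_le]
    rfl
  refine ⟨∑ g ∈ s, g ^ 2, fun x => ?_, fun x => ?_⟩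
  · rw [hev]
    exact Finset.sum_nonneg fun g _ => sq_nonneg _
  · rw [hev, Finset.sum_eq_zero_iff_of_nonneg fun g _ => sq_nonneg _, hker x F]
    have h2 : Ideal.span F = Ideal.span (s : Set (MvPolynomial (Fin N) ℝ)) := hs.symm
    rw [h2, ← hker]
    constructor
    · intro h g hg
      exact pow_eq_zero_iff (two_ne_zero) |>.mp (h g hg)
    · intro h g hg
      rw [h g hg]
      ring

/-- complex functions whose real and imaginary parts are real polynomials -/
def BsP {N : ℕ} (F : (Fin N → ℝ) → ℂ) : Prop :=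
  ∃ P Q : MvPolynomial (Fin N) ℝ, ∀ x, F x = (eval x P : ℂ) + (eval x Q : ℂ) * Complex.I

theorem bs_const {N : ℕ} (c : ℂ) : BsP (fun _ : Fin N → ℝ => c) := by
  refine ⟨C c.re, C c.im, fun x => ?_⟩
  rw [eval_C, eval_C, Complex.re_add_im]

theorem bs_add {N : ℕ} {F G : (Fin N → ℝ) → ℂ} (hF : BsP F) (hG : BsP G) :
    BsP (fun x => F x + G x) := by
  obtain ⟨P, Q, h⟩ := hF
  obtain ⟨P', Q', h'⟩ := hG
  refine ⟨P + P', Q + Q', fun x => ?_⟩
  show F x + G x = _
  rw [h, h', map_add, map_add]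
  push_cast
  ring

theorem bs_mul {N : ℕ} {F G : (Fin N → ℝ) → ℂ} (hF : BsP F) (hG : BsP G) :
    BsP (fun x => F x * G x) := by
  obtain ⟨P, Q, h⟩ := hF
  obtain ⟨P', Q', h'⟩ := hG
  refine ⟨P * P' - Q * Q', P * Q' + Q * P', fun x => ?_⟩
  show F x * G x = _
  rw [h, h', map_sub, map_add, map_mul, map_mul, map_mul, map_mul]
  push_cast
  linear_combination (((eval x) Q : ℂ) * ((eval x) Q' : ℂ)) * Complex.I_sq

theorem bs_sum {N : ℕ} {ι : Type} (s : Finset ι) {F : ι → (Fin N → ℝ) → ℂ}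
    (hF : ∀ i, BsP (F i)) : BsP (fun x => ∑ i ∈ s, F i x) := by
  classical
  induction s using Finset.induction_on with
  | empty =>
    have := bs_const (N := N) 0
    simpa using this
  | insert a s ha ih =>
    have h := bs_add (hF a) ih
    have h2 : (fun x => ∑ i ∈ insert a s, F i x) = fun x => F a x + ∑ i ∈ s, F i x := by
      funext x
      rw [Finset.sum_insert ha]
    rw [h2]
    exact h

theorem bs_eval {N : ℕ} {σ : Type} {z : (Fin N → ℝ) → σ → ℂ} (hz : ∀ s, BsP (fun x => z x s))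
    (p : MvPolynomial σ ℂ) : BsP (fun x => eval (z x) p) := by
  induction p using MvPolynomial.induction_on with
  | C a =>
    have := bs_const (N := N) a
    simpa using this
  | add p q hp hq =>
    have h := bs_add hp hq
    simpa using h
  | mul_X p s hp =>
    have h := bs_mul hp (hz s)
    simpa using h

theorem bs_zero {N : ℕ} (G : Set ((Fin N → ℝ) → ℂ)) (hG : ∀ F ∈ G, BsP F) :
    ∃ f : MvPolynomial (Fin N) ℝ, (∀ x, 0 ≤ eval x f) ∧
      ∀ x, eval x f = 0 ↔ ∀ F ∈ G, F x = 0 := by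
  obtain ⟨f, hf, h⟩ := bs_one {g | ∃ F ∈ G, ∃ P Q : MvPolynomial (Fin N) ℝ,
    (∀ x, F x = (eval x P : ℂ) + (eval x Q : ℂ) * Complex.I) ∧ (g = P ∨ g = Q)}
  refine ⟨f, hf, fun x => ?_⟩
  rw [h]
  constructor
  · intro h1 F hF
    obtain ⟨P, Q, hPQ⟩ := hG F hF
    rw [hPQ, h1 P ⟨F, hF, P, Q, hPQ, Or.inl rfl⟩, h1 Q ⟨F, hF, P, Q, hPQ, Or.inr rfl⟩]
    simp
  · rintro h1 g ⟨F, hF, P, Q, hPQ, hg⟩
    have h2 := h1 F hF
    rw [hPQ] at h2
    have hre := congrArg Complex.re h2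
    have him := congrArg Complex.im h2
    simp at hre him
    rcases hg with rfl | rfl
    · exact hre
    · exact him

/-! ## Counting open equivalence classes -/

theorem bs_count (hFC : ST_FC) {N : ℕ} (f : MvPolynomial (Fin N) ℝ) (hf : ∀ x, 0 ≤ eval x f)
    {M : Type} (C : M → (Fin N → ℝ)) (hinj : Function.Injective C)
    (hrange : ∀ x, eval x f = 0 ↔ ∃ m, C m = x) (s : Setoid M)
    (hopen : ∀ m, ∃ W, IsOpen W ∧ C m ∈ W ∧ ∀ m', C m' ∈ W → s.r m' m) :
    Finite (Quotient s) := by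
  obtain ⟨K, hK⟩ := hFC N f hf
  by_contra hcon
  have hinf : Infinite (Quotient s) := not_finite_iff_infinite.mp hcon
  let e : ℕ ↪ Quotient s := Infinite.natEmbedding (Quotient s)
  choose W hW1 hW2 hW3 using hopen
  have hZ : IsClosed {x : Fin N → ℝ | eval x f = 0} :=
    isClosed_eq (MvPolynomial.continuous_eval f) continuous_const
  have h := hK (K + 1) (fun i => C '' {a | Quotient.mk s a = e i}) ?_ ?_ ?_ ?_
  · omega
  · intro i
    obtain ⟨a, ha⟩ := Quotient.exists_rep (e i)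
    exact ⟨C a, a, ha, rfl⟩
  · intro i j hij
    rw [Set.disjoint_left]
    rintro x ⟨a, ha, rfl⟩ ⟨b, hb, hab⟩
    have h1 : b = a := hinj hab
    subst h1
    apply hij
    have h2 : e i = e j := by
      rw [← (show Quotient.mk s b = e i from ha), ← (show Quotient.mk s b = e j from hb)]
    exact Fin.ext (e.injective h2)
  · intro i
    refine ⟨⋃ (m : M) (_ : Quotient.mk s m = e i), W m,
      isOpen_iUnion fun m => isOpen_iUnion fun _ => hW1 m, ?_⟩
    ext x
    constructor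
    · rintro ⟨a, ha, rfl⟩
      exact ⟨Set.mem_iUnion₂.mpr ⟨a, ha, hW2 a⟩, (hrange _).mpr ⟨a, rfl⟩⟩
    · rintro ⟨hx, hx0⟩
      obtain ⟨m, hm, hxm⟩ := Set.mem_iUnion₂.mp hx
      obtain ⟨m', rfl⟩ := (hrange _).mp hx0
      refine ⟨m', ?_, rfl⟩
      show Quotient.mk s m' = e i
      rw [← hm]
      exact Quotient.sound (hW3 m m' hxm)
  · intro i
    have h1 : C '' {a | Quotient.mk s a = e i} = {x : Fin N → ℝ | eval x f = 0} ∩
        (⋃ (m : M) (_ : Quotient.mk s m ≠ e i), W m)ᶜ := by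
      ext x
      constructor
      · rintro ⟨a, ha, rfl⟩
        refine ⟨(hrange _).mpr ⟨a, rfl⟩, ?_⟩
        intro hx
        obtain ⟨m, hm, hxm⟩ := Set.mem_iUnion₂.mp hx
        apply hm
        rw [← (show Quotient.mk s a = e i from ha)]
        exact (Quotient.sound (hW3 m a hxm)).symm
      · rintro ⟨hx0, hx⟩
        obtain ⟨a, rfl⟩ := (hrange _).mp hx0
        refine ⟨a, ?_, rfl⟩
        by_contra hne
        exact hx (Set.mem_iUnion₂.mpr ⟨a, hne, hW2 a⟩)
    rw [h1]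
    exact hZ.inter (isOpen_iUnion fun m => isOpen_iUnion fun _ => hW1 m).isClosed_compl

/-! ## Neighbourhoods of the identity -/

theorem bs_nhds {n : ℕ} {X : Type} [TopologicalSpace X] (F : X → Matrix (Fin n) (Fin n) ℂ)
    (x : X) (hF : ContinuousAt F x) (hx : F x = 1) {ε : ℝ} (hε : 0 < ε) :
    {y | ∀ i j, ‖F y i j - (1 : Matrix (Fin n) (Fin n) ℂ) i j‖ < ε} ∈ 𝓝 x := by
  have h : ∀ i j, {y | ‖F y i j - (1 : Matrix (Fin n) (Fin n) ℂ) i j‖ < ε} ∈ 𝓝 x := by
    intro i j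
    have h1 : ContinuousAt (fun y => F y i j) x := by
      have h2 : Continuous fun a : Matrix (Fin n) (Fin n) ℂ => a i j :=
        continuous_id.matrix_elem i j
      exact h2.continuousAt.comp hF
    have h3 : ContinuousAt (fun y => ‖F y i j - (1 : Matrix (Fin n) (Fin n) ℂ) i j‖) x :=
      (h1.sub continuousAt_const).norm
    have h4 : ‖F x i j - (1 : Matrix (Fin n) (Fin n) ℂ) i j‖ < ε := by
      rw [hx, sub_self, norm_zero]; exact hε
    exact h3.eventually_lt_const h4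
  have h5 : {y | ∀ i j, ‖F y i j - (1 : Matrix (Fin n) (Fin n) ℂ) i j‖ < ε} =
      ⋂ i, ⋂ j, {y | ‖F y i j - (1 : Matrix (Fin n) (Fin n) ℂ) i j‖ < ε} := by
    ext y
    simp only [Set.mem_ofPred_eq, Set.mem_iInter]
  rw [h5]
  exact Filter.iInter_mem.mpr fun i => Filter.iInter_mem.mpr fun j => h i j

theorem bs_near {n : ℕ} {U : Set (Matrix (Fin n) (Fin n) ℂ)} (hU : U ∈ 𝓝 1) :
    ∃ ε > 0, ∀ y : GL (Fin n) ℂ, Near ε y → (y : Matrix (Fin n) (Fin n) ℂ) ∈ U := by
  have hU' : (U : Set (Fin n → Fin n → ℂ)) ∈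
      𝓝 (fun i j => (1 : Matrix (Fin n) (Fin n) ℂ) i j : Fin n → Fin n → ℂ) := hU
  obtain ⟨ε, hε, hball⟩ := Metric.nhds_basis_ball.mem_iff.mp hU'
  refine ⟨ε, hε, fun y hy => hball ?_⟩
  rw [Metric.mem_ball, dist_pi_lt_iff hε]
  intro i
  rw [dist_pi_lt_iff hε]
  intro j
  rw [dist_eq_norm]
  exact hy i j

theorem bs_cj_coe {n : ℕ} (g : GL (Fin n) ℂ) (i j : Fin n) :
    ((cj g : GL (Fin n) ℂ) : Matrix (Fin n) (Fin n) ℂ) i j =
      conj ((g : Matrix (Fin n) (Fin n) ℂ) i j) := rfl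

theorem bs_cj_mat {n : ℕ} (g : GL (Fin n) ℂ) :
    ((cj g : GL (Fin n) ℂ) : Matrix (Fin n) (Fin n) ℂ) =
      (g : Matrix (Fin n) (Fin n) ℂ).map (starRingEnd ℂ) := rfl

theorem bs_cj_cj {n : ℕ} (g : GL (Fin n) ℂ) : cj (cj g) = g := by
  apply Units.ext
  ext i j
  rw [bs_cj_coe, bs_cj_coe, Complex.conj_conj]

/-! ## Orbits are open -/

theorem bs_inv_cont {n : ℕ} : ContinuousAt
    (fun a : Matrix (Fin n) (Fin n) ℂ => (a.det)⁻¹ • a.adjugate) 1 := by
  have h1 : Continuous fun a : Matrix (Fin n) (Fin n) ℂ => a.det := continuous_id.matrix_det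
  have h2 : Continuous fun a : Matrix (Fin n) (Fin n) ℂ => a.adjugate :=
    continuous_id.matrix_adjugate
  have h3 : ContinuousAt (fun a : Matrix (Fin n) (Fin n) ℂ => (a.det)⁻¹) 1 := by
    apply ContinuousAt.inv₀ h1.continuousAt
    rw [Matrix.det_one]
    exact one_ne_zero
  exact h3.smul h2.continuousAt

theorem bs_inv_val {n : ℕ} (y : GL (Fin n) ℂ) :
    ((y⁻¹ : GL (Fin n) ℂ) : Matrix (Fin n) (Fin n) ℂ) =
      ((y : Matrix (Fin n) (Fin n) ℂ).det)⁻¹ • (y : Matrix (Fin n) (Fin n) ℂ).adjugate := by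
  rw [Matrix.coe_units_inv, Matrix.inv_def, Ring.inverse_eq_inv']

theorem bs_open (hSQA : ST_SQA) (hSQB : ST_SQB) {n : ℕ} (A : Subgroup (GL (Fin n) ℂ))
    (hA : ZClosed (A : Set (GL (Fin n) ℂ))) (m : GL (Fin n) ℂ)
    (hm : m ∈ A) (hmm : m * cj m = 1) :
    ∃ W ∈ 𝓝 (m : Matrix (Fin n) (Fin n) ℂ), ∀ m' : GL (Fin n) ℂ, m' ∈ A → m' * cj m' = 1 →
      (m' : Matrix (Fin n) (Fin n) ℂ) ∈ W → ∃ x ∈ A, m' = x * m * (cj x)⁻¹ := by
  obtain ⟨ε₂, hε₂, h2⟩ := hSQA n A hA
  obtain ⟨ε₃, hε₃, h3⟩ := hSQB.2 n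
  -- inverse near the identity
  obtain ⟨ε₄, hε₄, h4⟩ := bs_near (bs_nhds
    (fun a : Matrix (Fin n) (Fin n) ℂ => (a.det)⁻¹ • a.adjugate) 1 bs_inv_cont
    (by simp) hε₃)
  -- conjugation near the identity
  have hcont5 : Continuous fun a : Matrix (Fin n) (Fin n) ℂ =>
      (m : Matrix (Fin n) (Fin n) ℂ) * a.map (starRingEnd ℂ) *
        ((m⁻¹ : GL (Fin n) ℂ) : Matrix (Fin n) (Fin n) ℂ) := by
    have : Continuous fun a : Matrix (Fin n) (Fin n) ℂ => a.map (starRingEnd ℂ) :=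
      continuous_id.matrix_map Complex.continuous_conj
    exact (continuous_const.matrix_mul this).matrix_mul continuous_const
  have hval5 : (m : Matrix (Fin n) (Fin n) ℂ) * (1 : Matrix (Fin n) (Fin n) ℂ).map
      (starRingEnd ℂ) * ((m⁻¹ : GL (Fin n) ℂ) : Matrix (Fin n) (Fin n) ℂ) = 1 := by
    rw [Matrix.map_one _ (map_zero _) (map_one _), mul_one, ← Units.val_mul, mul_inv_cancel,
      Units.val_one]
  obtain ⟨ε₅, hε₅, h5⟩ := bs_near (bs_nhds _ 1 hcont5.continuousAt hval5 hε₃)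
  obtain ⟨δ, hδ, h1⟩ := hSQB.1 n (min ε₂ (min ε₃ (min ε₄ ε₅)))
    (lt_min hε₂ (lt_min hε₃ (lt_min hε₄ hε₅)))
  have hcont6 : Continuous fun b : Matrix (Fin n) (Fin n) ℂ =>
      b * ((m⁻¹ : GL (Fin n) ℂ) : Matrix (Fin n) (Fin n) ℂ) :=
    continuous_id.matrix_mul continuous_const
  refine ⟨_, bs_nhds _ (m : Matrix (Fin n) (Fin n) ℂ) hcont6.continuousAt
    (by rw [← Units.val_mul, mul_inv_cancel, Units.val_one]) hδ, ?_⟩
  intro m' hm' hmm' hnear
  obtain ⟨y, hy, hyx⟩ := h1 (m' * m⁻¹) hnear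
  have hy2 : Near ε₂ y := fun i j => lt_of_lt_of_le (hy i j) (min_le_left _ _)
  have hy3 : Near ε₃ y := fun i j => lt_of_lt_of_le (hy i j)
    ((min_le_right _ _).trans (min_le_left _ _))
  have hy4 : Near ε₄ y := fun i j => lt_of_lt_of_le (hy i j)
    ((min_le_right _ _).trans ((min_le_right _ _).trans (min_le_left _ _)))
  have hy5 : Near ε₅ y := fun i j => lt_of_lt_of_le (hy i j)
    ((min_le_right _ _).trans ((min_le_right _ _).trans (min_le_right _ _)))
  have hyA : y ∈ A := h2 y hy2 (by rw [hyx]; exact A.mul_mem hm' (A.inv_mem hm))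
  have hcm : cj m = m⁻¹ := (inv_eq_of_mul_eq_one_right hmm).symm
  have hcm' : cj m' = m'⁻¹ := (inv_eq_of_mul_eq_one_right hmm').symm
  -- the two square roots of the inverse
  have hr : m * cj y * m⁻¹ = y⁻¹ := by
    apply h3
    · exact h5 y hy5
    · intro i j
      rw [bs_inv_val]
      exact h4 y hy4 i j
    · have e1 : m * cj y * m⁻¹ * (m * cj y * m⁻¹) = m * cj (y * y) * m⁻¹ := by
        rw [map_mul]; group
      have e2 : y⁻¹ * y⁻¹ = (y * y)⁻¹ := by group
      rw [e1, e2, hyx, map_mul, map_inv, hcm, hcm']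
      group
  refine ⟨y, hyA, ?_⟩
  have hr2 : (cj y)⁻¹ = m⁻¹ * y * m := by
    have : cj y = m⁻¹ * y⁻¹ * m := by
      rw [← hr]; group
    rw [this]; group
  rw [hr2]
  have : y * m * (m⁻¹ * y * m) = y * y * m := by group
  rw [this, hyx]
  group

/-! ## Coordinates -/

/-- index set of the real coordinates -/
abbrev BsI (n : ℕ) : Type := (Fin n × Fin n) ⊕ (Fin n × Fin n)

/-- real coordinates of a matrix -/
noncomputable def bsC {n N : ℕ} (e : BsI n ≃ Fin N) (a : Matrix (Fin n) (Fin n) ℂ) :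
    Fin N → ℝ := fun k =>
  Sum.elim (fun ij : Fin n × Fin n => (a ij.1 ij.2).re) (fun ij => (a ij.1 ij.2).im) (e.symm k)

/-- matrix with given real coordinates -/
noncomputable def bsD {n N : ℕ} (e : BsI n ≃ Fin N) (x : Fin N → ℝ) :
    Matrix (Fin n) (Fin n) ℂ := fun i j =>
  (x (e (Sum.inl (i, j))) : ℂ) + (x (e (Sum.inr (i, j))) : ℂ) * Complex.I

theorem bs_DC {n N : ℕ} (e : BsI n ≃ Fin N) (a : Matrix (Fin n) (Fin n) ℂ) :
    bsD e (bsC e a) = a := by
  ext i j
  simp only [bsD, bsC, Equiv.symm_apply_apply, Sum.elim_inl, Sum.elim_inr]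
  exact Complex.re_add_im _

theorem bs_CD {n N : ℕ} (e : BsI n ≃ Fin N) (x : Fin N → ℝ) : bsC e (bsD e x) = x := by
  funext k
  obtain ⟨s, rfl⟩ := e.surjective k
  rcases s with ⟨i, j⟩ | ⟨i, j⟩
  · simp [bsD, bsC]
  · simp [bsD, bsC]

theorem bs_D_cont {n N : ℕ} (e : BsI n ≃ Fin N) : Continuous (bsD (n := n) e) := by
  apply continuous_matrix
  intro i j
  exact (Complex.continuous_ofReal.comp (continuous_apply _)).add
    ((Complex.continuous_ofReal.comp (continuous_apply _)).mul continuous_const)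

theorem bs_D_P {n N : ℕ} (e : BsI n ≃ Fin N) (i j : Fin n) : BsP (fun x => bsD e x i j) := by
  refine ⟨X (e (Sum.inl (i, j))), X (e (Sum.inr (i, j))), fun x => ?_⟩
  rw [eval_X, eval_X]
  rfl

theorem bs_D_P' {n N : ℕ} (e : BsI n ≃ Fin N) (i j : Fin n) :
    BsP (fun x => conj (bsD e x i j)) := by
  refine ⟨X (e (Sum.inl (i, j))), - X (e (Sum.inr (i, j))), fun x => ?_⟩
  rw [map_neg, eval_X, eval_X]
  simp [bsD]

theorem st_BS (hFC : ST_FC) (hSQA : ST_SQA) (hSQB : ST_SQB) : ST_BS := by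
  intro n A hA _
  obtain ⟨I, hI⟩ := hA
  have hA' : ZClosed (A : Set (GL (Fin n) ℂ)) := ⟨I, hI⟩
  let e : BsI n ≃ Fin (Fintype.card (BsI n)) := Fintype.equivFin _
  let M : Type := {a : GL (Fin n) ℂ // a ∈ A ∧ a * cj a = 1}
  let s : Setoid M :=
    { r := fun a b => ∃ x ∈ A, (a : GL (Fin n) ℂ) = x * b * (cj x)⁻¹
      iseqv := by
        refine ⟨fun a => ⟨1, A.one_mem, by simp⟩, ?_, ?_⟩
        · rintro a b ⟨x, hx, h⟩
          refine ⟨x⁻¹, A.inv_mem hx, ?_⟩
          rw [h, map_inv]; group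
        · rintro a b c ⟨x, hx, h⟩ ⟨y, hy, h'⟩
          refine ⟨x * y, A.mul_mem hx hy, ?_⟩
          rw [h, h', map_mul]; group }
  -- the real algebraic set
  obtain ⟨f, hf, hfz⟩ := bs_zero (N := Fintype.card (BsI n))
    ({F | ∃ i j : Fin n, F = fun x => (∑ k, bsD e x i k * conj (bsD e x k j)) +
        -(1 : Matrix (Fin n) (Fin n) ℂ) i j} ∪
      {F | ∃ p ∈ I, F = fun x => eval (Sum.elim (fun ij : Fin n × Fin n => bsD e x ij.1 ij.2)
        (fun ij : Fin n × Fin n => conj (bsD e x ij.1 ij.2))) p}) (by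
      rintro F (⟨i, j, rfl⟩ | ⟨p, _, rfl⟩)
      · exact bs_add (bs_sum _ fun k => bs_mul (bs_D_P e i k) (bs_D_P' e k j)) (bs_const _)
      · apply bs_eval
        rintro (ij | ij)
        · exact bs_D_P e _ _
        · exact bs_D_P' e _ _)
  have hmul : ∀ x : Fin (Fintype.card (BsI n)) → ℝ,
      (∀ i j : Fin n, (∑ k, bsD e x i k * conj (bsD e x k j)) +
        -(1 : Matrix (Fin n) (Fin n) ℂ) i j = 0) ↔
      bsD e x * (bsD e x).map (starRingEnd ℂ) = 1 := by
    intro x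
    constructor
    · intro h
      ext i j
      have := h i j
      rw [Matrix.mul_apply]
      exact eq_of_sub_eq_zero (by rw [sub_eq_add_neg]; exact this)
    · intro h i j
      have h2 := congrFun (congrFun h i) j
      rw [Matrix.mul_apply] at h2
      rw [← sub_eq_add_neg]
      exact sub_eq_zero.mpr h2
  have hfin : Finite (Quotient s) := by
    apply bs_count hFC f hf (fun m : M => bsC e ((m : GL (Fin n) ℂ) : Matrix (Fin n) (Fin n) ℂ))
      ?_ ?_ s ?_
    · intro a b hab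
      apply Subtype.ext
      apply Units.ext
      have := congrArg (bsD e) hab
      simpa only [bs_DC] using this
    · intro x
      rw [hfz]
      constructor
      · intro h
        have h1 : bsD e x * (bsD e x).map (starRingEnd ℂ) = 1 :=
          (hmul x).mp fun i j => h _ (Or.inl ⟨i, j, rfl⟩)
        let g : GL (Fin n) ℂ := ⟨bsD e x, (bsD e x).map (starRingEnd ℂ), h1,
          mul_eq_one_comm.mp h1⟩
        have hgA : g ∈ (A : Set (GL (Fin n) ℂ)) := by
          rw [hI]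
          intro p hp
          exact h _ (Or.inr ⟨p, hp, rfl⟩)
        refine ⟨⟨g, hgA, ?_⟩, bs_CD e x⟩
        apply Units.ext
        exact h1
      · rintro ⟨⟨m, hm, hmm⟩, rfl⟩
        have hD : bsD e (bsC e ((m : GL (Fin n) ℂ) : Matrix (Fin n) (Fin n) ℂ)) = m := bs_DC e _
        rintro F (⟨i, j, rfl⟩ | ⟨p, hp, rfl⟩)
        · refine (hmul _).mpr ?_ i j
          show bsD e (bsC e (m : Matrix (Fin n) (Fin n) ℂ)) *
            (bsD e (bsC e (m : Matrix (Fin n) (Fin n) ℂ))).map (starRingEnd ℂ) = 1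
          rw [hD, ← bs_cj_mat, ← Units.val_mul, hmm, Units.val_one]
        · have h1 : m ∈ (A : Set (GL (Fin n) ℂ)) := hm
          rw [hI] at h1
          have h2 := h1 p hp
          show eval (Sum.elim (fun ij : Fin n × Fin n =>
            bsD e (bsC e (m : Matrix (Fin n) (Fin n) ℂ)) ij.1 ij.2)
            (fun ij : Fin n × Fin n =>
              conj (bsD e (bsC e (m : Matrix (Fin n) (Fin n) ℂ)) ij.1 ij.2))) p = 0
          rw [hD]
          have h3 : entries m = Sum.elim (fun ij : Fin n × Fin n =>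
            (m : Matrix (Fin n) (Fin n) ℂ) ij.1 ij.2)
            (fun ij : Fin n × Fin n => conj ((m : Matrix (Fin n) (Fin n) ℂ) ij.1 ij.2)) := by
            unfold entries
            have h4 : m⁻¹ = cj m := inv_eq_of_mul_eq_one_right hmm
            rw [h4]
            rfl
          rw [← h3]
          exact h2
    · rintro ⟨m, hm, hmm⟩
      obtain ⟨W, hW, hWm⟩ := bs_open hSQA hSQB A hA' m hm hmm
      have hW2 : bsD e ⁻¹' W ∈ 𝓝 (bsC e (m : Matrix (Fin n) (Fin n) ℂ)) := by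
        apply (bs_D_cont e).continuousAt.preimage_mem_nhds
        rw [bs_DC]
        exact hW
      obtain ⟨O, hO1, hO2, hO3⟩ := mem_nhds_iff.mp hW2
      refine ⟨O, hO2, hO3, ?_⟩
      rintro ⟨m', hm', hmm'⟩ hO
      have h1 := hO1 hO
      apply hWm m' hm' hmm'
      have h2 : bsD e (bsC e (m' : Matrix (Fin n) (Fin n) ℂ)) ∈ W := h1
      rwa [bs_DC] at h2
  refine ⟨(Set.finite_range (fun q : Quotient s => ((Quotient.out q : M) : GL (Fin n) ℂ))).toFinset,
    ?_, ?_⟩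
  · intro b hb
    rw [Set.Finite.mem_toFinset] at hb
    obtain ⟨q, rfl⟩ := hb
    exact (Quotient.out q : M).2.1
  · intro a ha haa
    refine ⟨((Quotient.out (Quotient.mk s ⟨a, ha, haa⟩) : M) : GL (Fin n) ℂ), ?_, ?_⟩
    · rw [Set.Finite.mem_toFinset]
      exact ⟨_, rfl⟩
    · have h1 := Quotient.mk_out (s := s) (⟨a, ha, haa⟩ : M)
      obtain ⟨x, hx, h2⟩ := s.symm h1
      exact ⟨x, hx, h2⟩

end Pool.Agent.Helper43.RS
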